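import Pool.Agent.Run7.h429.MS.Main

/-!
# Sets of ordinals in Magidor-Radin extensions with `o κ > κ⁺`, cofinality of `o κ` above `κ`

Let `κ⁺ < o κ` and let the cofinality of `o κ` be greater than `κ`. Every set of ordinals in the
extension is added by a bounded part of the generic sequence, or computes all the points of the
generic sequence in a set `X` of the ground model which has measure one for a tail of the measures
on `κ`.
-/

open Run7.h429.MR Set

universe u w

theorem Pool.Agent.Results.MP_3098b6_lc.LongTailDichotomy.result {κ : Ordinal.{u}}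
    (M : CoherentSeq κ) (ho : (Order.succ κ.card).ord < M.o κ) (hc : κ.card < (M.o κ).cof)
    {ι : Type w} (A : ι → Set (Cond M)) (hA : ∀ i, IsSentence (A i)) (p : Cond M) :
    ∃ q ≤ p, (∃ ν < κ, Computes q (fun μ : Iic ν => club M μ) A) ∨
      (∃ ξ < M.o κ, ∃ X : Set Ordinal.{u}, (∀ ζ, ξ ≤ ζ → ζ < M.o κ → X ∈ M.U κ ζ) ∧
        Computes q A (fun α : X => club M α)) :=
  Run7.h429.MS.dichotomy (lt_of_le_of_lt bot_le ho) hc hA p
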